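import Pool.Agent.helper43.DHB.SpecB

/-!
# d2:bRSM: resampling the coordinates in `S`
-/

set_option autoImplicit false

open Filter Topology MeasureTheory
open scoped commutatorElement

namespace Pool.Agent.helper90.DH

open Pool.Agent.helper64.D2

open Classical in
theorem bRSM_card (T : Type) [Fintype T] (A : Set T) : (Set.ncard A : ℝ) = ∑ x : T, if x ∈ A then (1 : ℝ) else 0 := by
  rw [Finset.sum_boole, Set.ncard_eq_toFinset_card']
  congr 2
  ext x
  simp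

open Classical in
/-- mixing of two families. -/
noncomputable def bRSM_mix {J κ : Type} (S : Set J) (ω ω₀ : J → κ) : J → κ := fun j => if j ∈ S then ω j else ω₀ j

theorem bRSM_inv {J κ : Type} (S : Set J) (ω ω₀ : J → κ) :
    bRSM_mix S (bRSM_mix S ω₀ ω) (bRSM_mix S ω ω₀) = ω₀ ∧ bRSM_mix S (bRSM_mix S ω ω₀) (bRSM_mix S ω₀ ω) = ω := by
  constructor <;>
  · funext j
    unfold bRSM_mix
    by_cases h : j ∈ S <;> simp [h]

theorem bRSM : bRSM_stmt := by
  classical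
  intro J κ _ _ _ _ S A p h
  have hn : (0 : ℝ) < Fintype.card (J → κ) := by
    have : 0 < Fintype.card (J → κ) := Fintype.card_pos
    exact_mod_cast this
  let Φ : (J → κ) × (J → κ) → (J → κ) × (J → κ) := fun q => (bRSM_mix S q.2 q.1, bRSM_mix S q.1 q.2)
  have hΦ : Function.Involutive Φ := by
    rintro ⟨ω₀, ω⟩
    show (bRSM_mix S (bRSM_mix S ω₀ ω) (bRSM_mix S ω ω₀), bRSM_mix S (bRSM_mix S ω ω₀) (bRSM_mix S ω₀ ω)) = (ω₀, ω)
    rw [(bRSM_inv S ω ω₀).1, (bRSM_inv S ω ω₀).2]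
  let g : (J → κ) × (J → κ) → ℝ := fun q => if q.1 ∈ A then 1 else 0
  have h1 : ∑ q, g (Φ q) = ∑ q, g q := Equiv.sum_comp (hΦ.toPerm Φ) g
  have h2 : ∑ q, g (Φ q) = ∑ ω₀ : J → κ, ∑ ω : J → κ, if bRSM_mix S ω ω₀ ∈ A then (1 : ℝ) else 0 := by
    rw [Fintype.sum_prod_type]
  have h3 : ∑ q, g q = (∑ ω₀ : J → κ, if ω₀ ∈ A then (1 : ℝ) else 0) * Fintype.card (J → κ) := by
    rw [Fintype.sum_prod_type, Finset.sum_mul]
    apply Finset.sum_congr rfl
    intro ω₀ _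
    show ∑ _ω : J → κ, (if ω₀ ∈ A then (1 : ℝ) else 0) = _
    rw [Finset.sum_const, Finset.card_univ, nsmul_eq_mul, mul_comm]
  have h4 : ∑ ω₀ : J → κ, ∑ ω : J → κ, (if bRSM_mix S ω ω₀ ∈ A then (1 : ℝ) else 0) ≤
      ∑ _ω₀ : J → κ, p * Fintype.card (J → κ) := by
    apply Finset.sum_le_sum
    intro ω₀ _
    have h5 := h ω₀
    unfold bpr at h5
    rw [div_le_iff₀ hn, bRSM_card] at h5
    exact h5
  rw [Finset.sum_const, Finset.card_univ, nsmul_eq_mul, ← h2, h1, h3] at h4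
  unfold bpr
  rw [div_le_iff₀ hn, bRSM_card]
  have h5 : (Fintype.card (J → κ) : ℝ) * (p * Fintype.card (J → κ)) = (p * Fintype.card (J → κ)) * Fintype.card (J → κ) := by ring
  rw [h5] at h4
  exact le_of_mul_le_mul_right h4 hn

end Pool.Agent.helper90.DH
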